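import Pool.Agent.MWHQ.Stmts

/-!
# Row RDL of MWHQ: a light letter of degree two and a letter whose entries are all heavy
-/

set_option autoImplicit false

namespace Pool.Agent.MWHQ.H75

open Pool.Agent.Helper14_MV Pool.Agent.Helper2_MV Pool.Agent.MVO Pool.Agent.MWL Pool.Agent.MWS
  Pool.Agent.MWH Pool.Agent.MWHQ

theorem eg_self {β : FIC} {k : ℕ} {a b : ℕ → ℕ} {i : ℕ} {s s' : Stt}
    (h : JPp β (asm k (W a b i s), asm k (W a b i s'))) : Eg β k a b i s s' := by
  refine ⟨[(asm k (W a b i s), asm k (W a b i s'))], fun e' he => ?_,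
    fun θ _ _ => ⟨fun ht e' he => ?_, fun ht => ?_⟩⟩
  · rw [List.mem_singleton] at he
    rw [he]; exact h
  · rw [List.mem_singleton] at he
    rw [he]; exact ht
  · exact ht _ (List.mem_singleton.2 rfl)

/-- **RDL** -/
theorem rdl (hD : DlbStmt) (hJ : JhbStmt) : RdlStmt := by
  intro n β hβ k
  induction k with
  | zero =>
    intro a b i u v _ hl _ _
    have h1 := hl.uv
    have h2 := hl.vk
    omega
  | succ k ih =>
    intro a b i u v hv hl hbi hb
    have vxy : Vs a b i Stt.xy := fun h => absurd h (by decide)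
    have vyx : Vs a b i Stt.yx := fun h => absurd h (by decide)
    have vov : Vs a b i Stt.ov := fun _ => Or.inr hbi
    obtain ⟨p, hp⟩ : ∃ p, (i = u ∧ p = v) ∨ (i = v ∧ p = u) := by
      by_cases h1 : i = u
      · exact ⟨v, Or.inl ⟨h1, rfl⟩⟩
      · by_cases h2 : i = v
        · exact ⟨u, Or.inr ⟨h2, rfl⟩⟩
        · exact absurd (hl.az i hv.ik h1 h2) hv.ai
    by_cases hall : ∀ j ≤ k + 1, j ≠ p → b j ≠ 0
    · obtain ⟨j1, j2⟩ := hJ n β hβ (k + 1) a b i p u v hv hl hp
        (fun j hj hjp => hb j hj (hall j hj hjp))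
      exact ⟨eg_self j1, eg_self j2⟩
    · obtain ⟨j, hj, hjp, hbj⟩ : ∃ j, j ≤ k + 1 ∧ j ≠ p ∧ b j = 0 := by
        by_contra h
        apply hall
        intro j hj hjp h0
        exact h ⟨j, hj, hjp, h0⟩
      have hji : j ≠ i := by
        intro h
        rw [h] at hbj
        omega
      have hju : j ≠ u := by
        rcases hp with ⟨h1, h2⟩ | ⟨h1, h2⟩ <;> omega
      have hjv : j ≠ v := by
        rcases hp with ⟨h1, h2⟩ | ⟨h1, h2⟩ <;> omega
      have haj : a j = 0 := hl.az j hj hju hjv
      have huv := hl.uv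
      have hvk := hl.vk
      set f : ℕ → ℕ := fun r => if r < j then r else r + 1 with hf
      have hfr : ∀ r, f r = if r < j then r else r + 1 := fun r => rfl
      have hinj : ∀ r r', f r = f r' → r = r' := by
        intro r r' h
        rw [hfr, hfr] at h
        split_ifs at h <;> omega
      have hle : ∀ r ≤ k, f r ≤ k + 1 := by
        intro r hr
        rw [hfr]
        split_ifs <;> omega
      have hg : ∀ r, r ≠ j → f (if r < j then r else r - 1) = r := by
        intro r hr
        rw [hfr]
        split_ifs <;> omega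
      obtain ⟨i', hi', hfi, hv', _⟩ :=
        hD n β β hβ.toBaseH (fun _ _ h => h) k a b i j hv hj haj hbj f hfr
      have hl' : LL2 k (fun r => a (f r)) (if u < j then u else u - 1)
          (if v < j then v else v - 1) := by
        constructor
        · split_ifs <;> omega
        · split_ifs <;> omega
        · show a (f (if u < j then u else u - 1)) = 1
          rw [hg u (fun h => hju h.symm)]
          exact hl.au
        · show a (f (if v < j then v else v - 1)) = 1
          rw [hg v (fun h => hjv h.symm)]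
          exact hl.av
        · intro r hr h1 h2
          apply hl.az (f r) (hle r hr)
          · intro h
            apply h1
            apply hinj
            rw [hg u (fun h => hju h.symm), h]
          · intro h
            apply h2
            apply hinj
            rw [hg v (fun h => hjv h.symm), h]
      have hbi' : 2 ≤ b (f i') := by rw [hfi]; exact hbi
      obtain ⟨⟨L1, hJ1, hL1⟩, ⟨L2, hJ2, hL2⟩⟩ :=
        ih (fun r => a (f r)) (fun r => b (f r)) i' _ _ hv' hl' hbi'
          (fun r hr h0 => hb (f r) (hle r hr) h0)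
      have key : ∀ θ : FIC, β ≤ θ → ∀ s s' : Stt, Vs a b i s → Vs a b i s' →
          (Tr θ (k + 1) a b i s s' ↔
            Tr θ k (fun r => a (f r)) (fun r => b (f r)) i' s s') := by
        intro θ hθ s s' hs hs'
        obtain ⟨i2, _, hfi2, _, h4⟩ := hD n β θ hβ.toBaseH hθ k a b i j hv hj haj hbj f hfr
        have e : i2 = i' := hinj _ _ (by rw [hfi2, hfi])
        rw [← e]
        exact h4 s s' hs hs'
      exact ⟨⟨L1, hJ1, fun θ hθ hn => (key θ hθ _ _ vxy vov).trans (hL1 θ hθ hn)⟩,
        ⟨L2, hJ2, fun θ hθ hn => (key θ hθ _ _ vyx vov).trans (hL2 θ hθ hn)⟩⟩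

end Pool.Agent.MWHQ.H75
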